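import Mathlib

set_option autoImplicit false

namespace Pool.Agent.Results.MP_b34cfe_co.Disproof

/-- The nine points (x, y, x^2 + y^2) of a cap in the affine space of dimension 3 over ZMod 3,
each taken twice. -/
def capSeq : Multiset (Fin 3 → ZMod 3) :=
  {![0,0,0], ![0,0,0], ![0,1,1], ![0,1,1], ![0,2,1], ![0,2,1],
   ![1,0,1], ![1,0,1], ![1,1,2], ![1,1,2], ![1,2,2], ![1,2,2],
   ![2,0,1], ![2,0,1], ![2,1,2], ![2,1,2], ![2,2,2], ![2,2,2]}

theorem capSeq_sum : capSeq.sum = 0 := by decide +kernel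

theorem capSeq_card : capSeq.card = 18 := by decide +kernel

theorem capSeq_free : ∀ T ∈ Multiset.powersetCard 3 capSeq, T.sum ≠ 0 := by decide +kernel

/-- The negated form of Q1: there are positive integers n, t, d and a zero-sum sequence over
(Z/nZ)^d of length at least (t + 2^d - 1) n - l + 1, with l the least integer that is at least 2^d
and does not divide n, that has no zero-sum subsequence of length n t. -/
theorem result :
    ∃ n t d l : ℕ, 0 < n ∧ 0 < t ∧ 0 < d ∧
      IsLeast {k : ℕ | 2 ^ d ≤ k ∧ ¬ k ∣ n} l ∧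
      ∃ S : Multiset (Fin d → ZMod n), S.sum = 0 ∧
        ((t : ℤ) + 2 ^ d - 1) * (n : ℤ) - (l : ℤ) + 1 ≤ (S.card : ℤ) ∧
        ∀ T : Multiset (Fin d → ZMod n), T ≤ S → T.card = n * t → T.sum ≠ 0 := by
  refine ⟨3, 1, 3, 8, by norm_num, by norm_num, by norm_num, ⟨⟨by norm_num, by norm_num⟩, ?_⟩,
    capSeq, capSeq_sum, ?_, ?_⟩
  · intro k hk
    have := hk.1
    norm_num at this
    exact this
  · rw [capSeq_card]; norm_num
  · intro T hT hc
    exact capSeq_free T (Multiset.mem_powersetCard.2 ⟨hT, hc⟩)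

end Pool.Agent.Results.MP_b34cfe_co.Disproof
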