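import Pool.Agent.Lib.MP_b34cfe_co.Reach

set_option autoImplicit false

namespace Pool.Agent.Results.MP_b34cfe_co.PrimePowerExact

/-- `IsModifiedEGZ G m L`: `L` is the least integer such that every zero-sum sequence over `G` of
length at least `L` has a zero-sum subsequence of length exactly `m`. -/
def IsModifiedEGZ (G : Type) [AddCommGroup G] (m L : ℕ) : Prop :=
  IsLeast {L' : ℕ | ∀ S : Multiset G, S.sum = 0 → L' ≤ S.card →
    ∃ T : Multiset G, T ≤ S ∧ T.card = m ∧ T.sum = 0} L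

/-- The exact modified constant of `(Z/qZ)^d` for a prime power `q` and lengths `q t`, when `t` is a
multiple of a large enough power of `p`, or `t ≥ p ^ d`, or `t ≥ (p + 1) d (k d + 1)`. -/
theorem result :
    ∀ p k q d t : ℕ, p.Prime → 0 < k → q = p ^ k → 0 < d → 0 < t →
      ((∃ a : ℕ, d * (q - 1) < q * p ^ a ∧ p ^ a ∣ t) ∨ p ^ d ≤ t ∨
        (p + 1) * d * (k * d + 1) ≤ t) →
      IsModifiedEGZ (Fin d → ZMod q) (q * t)
        (q * t + d * (q - 1) - if p ∣ d + 1 then 1 else 0) := by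
  intro p k q d t hp hk hq hd ht hrange
  subst hq
  have : Fact p.Prime := ⟨hp⟩
  have hq : 2 ≤ p ^ k := le_trans hp.two_le (Nat.le_self_pow hk.ne' p)
  have hpos : 1 ≤ d * (p ^ k - 1) := Nat.mul_pos hd (by omega)
  have hup : Pool.Agent.Lib.MP_b34cfe_co.Pr (G := Fin d → ZMod (p ^ k)) (p ^ k * t)
      (d * (p ^ k - 1) - if p ∣ d + 1 then 1 else 0) := by
    rcases hrange with ⟨a, h1, m, rfl⟩ | h | h
    · obtain ⟨m, rfl⟩ : ∃ m', m = m' + 1 := ⟨m - 1, by
        have : m ≠ 0 := by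
          rintro rfl
          simp at ht
        omega⟩
      exact Pool.Agent.Lib.MP_b34cfe_co.upper_mul p k d hk hd a h1 m
    · exact Pool.Agent.Lib.MP_b34cfe_co.upper_big p k d hk hd t h
    · exact Pool.Agent.Lib.MP_b34cfe_co.upper_poly p k d hk hd t h
  obtain ⟨S, h1, h2, h3⟩ := Pool.Agent.Lib.MP_b34cfe_co.lower p k d hk hd t ht
  have key : IsModifiedEGZ (Fin d → ZMod (p ^ k)) (p ^ k * t)
      (p ^ k * t + (d * (p ^ k - 1) - if p ∣ d + 1 then 1 else 0)) := by
    refine ⟨fun S hS0 hS => hup S hS0 hS, fun L hL => ?_⟩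
    by_contra hlt
    obtain ⟨T, a1, a2, a3⟩ := hL S h1 (by omega)
    exact h3 T a1 a2 a3
  rw [Nat.add_sub_assoc (by split_ifs <;> omega)]
  exact key

end Pool.Agent.Results.MP_b34cfe_co.PrimePowerExact
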